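import Pool.Agent.Q7.GK.Stm2
import Pool.Agent.Q16.GK.GN
import Pool.Agent.Q16.GK.GC

/-!
# Project GK (helper7), job GAB: the Gross–Kuz'min conjecture for abelian fields from `S_GAB1`
-/

set_option autoImplicit false

namespace Pool.Agent.Q129.GK.GAB

open NumberField IsDedekindDomain Filter Topology Finset
open Pool.Agent.Q7.GK
open Pool.Agent.W289.SL (IsIwasawaLog)
open Pool.Agent.Q16.GK.GN (oE em_iff cj cj_lam cj_val gJ mem_PC)

/-- a function on a finite abelian group all of whose nontrivial Fourier coefficients vanish is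
constant -/
theorem char_const {Γ : Type} [Group Γ] [Fintype Γ] (hc : ∀ g h : Γ, g * h = h * g) {E : Type}
    [Field E] [IsAlgClosed E] [CharZero E] (b : Γ → E)
    (hb : ∀ χ : Γ →* Eˣ, χ ≠ 1 → ∑ g, b g * (((χ g)⁻¹ : Eˣ) : E) = 0) (x y : Γ) : b x = b y := by
  classical
  let _ : CommGroup Γ := { (inferInstance : Group Γ) with mul_comm := hc }
  have hne : NeZero ((Monoid.exponent Γ : ℕ) : E) :=
    ⟨Nat.cast_ne_zero.2 Monoid.exponent_ne_zero_of_finite⟩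
  have hen : HasEnoughRootsOfUnity E (Monoid.exponent Γ) := IsSepClosed.hasEnoughRootsOfUnity E _
  obtain ⟨e⟩ := CommGroup.monoidHom_mulEquiv_of_hasEnoughRootsOfUnity Γ E
  have hfin : Finite (Γ →* Eˣ) := Finite.of_equiv _ e.symm.toEquiv
  let _ := Fintype.ofFinite (Γ →* Eˣ)
  have orth : ∀ x : Γ, x ≠ 1 → ∑ χ : Γ →* Eˣ, ((χ x : Eˣ) : E) = 0 := by
    intro x hx
    obtain ⟨φ, hφ⟩ := CommGroup.exists_apply_ne_one_of_hasEnoughRootsOfUnity Γ E hx
    have h1 : ((φ x : Eˣ) : E) * ∑ χ : Γ →* Eˣ, ((χ x : Eˣ) : E) = ∑ χ : Γ →* Eˣ, ((χ x : Eˣ) : E) := by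
      rw [Finset.mul_sum]
      refine Fintype.sum_bijective (fun χ : Γ →* Eˣ => φ * χ) (Group.mulLeft_bijective φ) _ _ fun χ => ?_
      rw [MonoidHom.mul_apply, Units.val_mul]
    have h2 : (((φ x : Eˣ) : E) - 1) * ∑ χ : Γ →* Eˣ, ((χ x : Eˣ) : E) = 0 := by
      rw [sub_mul, one_mul, h1, sub_self]
    rcases mul_eq_zero.1 h2 with h3 | h3
    · exact absurd (Units.ext (sub_eq_zero.1 h3)) hφ
    · exact h3
  have key : ∀ x : Γ, (Fintype.card (Γ →* Eˣ) : E) * b x = ∑ g, b g := by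
    intro x
    have h1 : ∑ χ : Γ →* Eˣ, ((χ x : Eˣ) : E) * ∑ g, b g * (((χ g)⁻¹ : Eˣ) : E) = ∑ g, b g := by
      rw [Finset.sum_eq_single (1 : Γ →* Eˣ)]
      · simp
      · intro χ _ hχ
        rw [hb χ hχ, mul_zero]
      · intro h
        exact absurd (Finset.mem_univ _) h
    have h2 : ∑ χ : Γ →* Eˣ, ((χ x : Eˣ) : E) * ∑ g, b g * (((χ g)⁻¹ : Eˣ) : E) =
        ∑ g, b g * ∑ χ : Γ →* Eˣ, ((χ (x * g⁻¹) : Eˣ) : E) := by
      simp_rw [Finset.mul_sum]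
      rw [Finset.sum_comm]
      refine Finset.sum_congr rfl fun g _ => Finset.sum_congr rfl fun χ _ => ?_
      rw [map_mul, map_inv, Units.val_mul]
      ring
    rw [← h1, h2, Finset.sum_eq_single x]
    · rw [mul_inv_cancel]
      simp only [map_one, Units.val_one, Finset.sum_const, Finset.card_univ, nsmul_eq_mul, mul_one]
      ring
    · intro g _ hg
      rw [orth (x * g⁻¹) (fun h => hg (by
        have h5 := mul_inv_eq_one.1 h
        exact h5.symm)), mul_zero]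
    · intro h
      exact absurd (Finset.mem_univ _) h
  have hcard : (Fintype.card (Γ →* Eˣ) : E) ≠ 0 := Nat.cast_ne_zero.2 Fintype.card_ne_zero
  exact mul_left_cancel₀ hcard ((key x).trans (key y).symm)

section

variable {p : ℕ} [Fact p.Prime] {K : Type} [Field K] [NumberField K]

theorem cj_mul (g h : K ≃ₐ[ℚ] K) (P : HeightOneSpectrum (𝓞 K)) : cj (g * h) P = cj h (cj g P) := by
  apply HeightOneSpectrum.ext
  ext x
  exact Iff.rfl

theorem cj_one (P : HeightOneSpectrum (𝓞 K)) : cj (1 : K ≃ₐ[ℚ] K) P = P := by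
  apply HeightOneSpectrum.ext
  ext x
  exact Iff.rfl

theorem cj_natCast (g : K ≃ₐ[ℚ] K) (P : HeightOneSpectrum (𝓞 K)) (n : ℕ) :
    (n : 𝓞 K) ∈ (cj g P).asIdeal ↔ (n : 𝓞 K) ∈ P.asIdeal := by
  have h1 : (n : 𝓞 K) ∈ (cj g P).asIdeal ↔ gJ g (n : 𝓞 K) ∈ P.asIdeal := Iff.rfl
  rw [h1, map_natCast]

theorem eq_of_val (P Q : HeightOneSpectrum (𝓞 K)) (h : ∀ x : K, P.valuation K x = Q.valuation K x) :
    P = Q := by
  apply HeightOneSpectrum.ext
  ext x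
  have h1 := h (algebraMap (𝓞 K) K x)
  rw [HeightOneSpectrum.valuation_of_algebraMap, HeightOneSpectrum.valuation_of_algebraMap] at h1
  rw [← P.intValuation_lt_one_iff_mem, ← Q.intValuation_lt_one_iff_mem, h1]

theorem oE_comp (σ : K →+* ℂ_[p]) (τ : K ≃ₐ[ℚ] K) :
    oE (σ.comp (τ : K →+* K)) = cj τ (oE σ) := by
  apply HeightOneSpectrum.ext
  ext x
  exact Iff.rfl

theorem emb_bij (hgal : IsGalois ℚ K) (σ : K →+* ℂ_[p]) :
    Function.Bijective (fun τ : K ≃ₐ[ℚ] K => σ.comp (τ : K →+* K)) := by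
  refine (Fintype.bijective_iff_injective_and_card _).2 ⟨?_, ?_⟩
  · intro τ τ' h
    ext x
    exact σ.injective (RingHom.congr_fun h x)
  · rw [NumberField.Embeddings.card, ← IsGalois.card_aut_eq_finrank ℚ K, Nat.card_eq_fintype_card]

/-- a power of a prime ideal is principal -/
theorem exists_pi (P : HeightOneSpectrum (𝓞 K)) : ∃ π : K, π ≠ 0 ∧ P.valuation K π < 1 ∧
    ∀ Q : HeightOneSpectrum (𝓞 K), Q ≠ P → Q.valuation K π = 1 := by
  classical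
  have hP0 : P.asIdeal ∈ nonZeroDivisors (Ideal (𝓞 K)) := mem_nonZeroDivisors_of_ne_zero P.ne_bot
  obtain ⟨n, hn⟩ : ∃ n : ℕ, n = Fintype.card (ClassGroup (𝓞 K)) := ⟨_, rfl⟩
  have hn0 : n ≠ 0 := by rw [hn]; exact Fintype.card_ne_zero
  have h1 : (P.asIdeal ^ n).IsPrincipal := by
    have h2 : (ClassGroup.mk0 (⟨P.asIdeal, hP0⟩ : nonZeroDivisors (Ideal (𝓞 K)))) ^ n = 1 := by
      rw [hn]
      exact pow_card_eq_one
    rw [← map_pow] at h2
    exact (ClassGroup.mk0_eq_one_iff (pow_mem hP0 n)).1 h2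
  obtain ⟨a, ha⟩ := h1
  have ha' : P.asIdeal ^ n = Ideal.span {a} := ha
  have ha0 : a ≠ 0 := by
    rintro rfl
    rw [Ideal.span_singleton_eq_bot.2 rfl] at ha'
    exact P.ne_bot (pow_eq_zero_iff hn0 |>.1 ha')
  refine ⟨(a : K), ?_, ?_, ?_⟩
  · exact RingOfIntegers.coe_ne_zero_iff.2 ha0
  · have h3 : P.valuation K (algebraMap (𝓞 K) K a) < 1 := by
      rw [HeightOneSpectrum.valuation_of_algebraMap, P.intValuation_lt_one_iff_mem]
      have h4 : a ∈ P.asIdeal ^ n := by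
        rw [ha']
        exact Ideal.mem_span_singleton_self a
      exact Ideal.pow_le_self hn0 h4
    exact h3
  · intro Q hQ
    have h3 : Q.valuation K (algebraMap (𝓞 K) K a) = 1 := by
      rw [HeightOneSpectrum.valuation_of_algebraMap, HeightOneSpectrum.intValuation_eq_one_iff]
      intro h
      have h5 : P.asIdeal ^ n ≤ Q.asIdeal := by
        rw [ha', Ideal.span_singleton_le_iff_mem]
        exact h
      have h6 : P.asIdeal ≤ Q.asIdeal := (Q.isPrime.pow_le_iff hn0).1 h5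
      exact hQ (HeightOneSpectrum.ext (P.isMaximal.eq_of_le Q.isPrime.ne_top h6).symm)
    exact h3

open Classical in
theorem lam_formula (hgal : IsGalois ℚ K) (Lg : ℂ_[p] → ℂ_[p]) (P : HeightOneSpectrum (𝓞 K))
    (σ : K →+* ℂ_[p]) (hσ : Em P σ) (x : K) :
    lam Lg P x = ∑ τ : K ≃ₐ[ℚ] K, if cj τ P = P then Lg (σ (τ x)) else 0 := by
  unfold lam
  symm
  refine Fintype.sum_bijective _ (emb_bij hgal σ) _ _ fun τ => ?_
  have h1 : Em P (σ.comp (τ : K →+* K)) ↔ cj τ P = P := by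
    rw [em_iff, oE_comp, em_iff.1 hσ]
  by_cases h : cj τ P = P
  · rw [if_pos h, if_pos (h1.2 h)]
    rfl
  · rw [if_neg h, if_neg fun h' => h (h1.1 h')]

theorem char_sum (hgal : IsGalois ℚ K) (Lg : ℂ_[p] → ℂ_[p]) (P : HeightOneSpectrum (𝓞 K))
    (σ : K →+* ℂ_[p]) (hσ : Em P σ) (x : K) (χ : (K ≃ₐ[ℚ] K) →* ℂ_[p]ˣ)
    (hχ : ∀ g : K ≃ₐ[ℚ] K, cj g P = P → χ g = 1) :
    ∃ n : ℕ, n ≠ 0 ∧ ∑ g : K ≃ₐ[ℚ] K, ((χ g : ℂ_[p]ˣ) : ℂ_[p]) * lam Lg P (g x) =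
      (n : ℂ_[p]) * ∑ g : K ≃ₐ[ℚ] K, ((χ g : ℂ_[p]ˣ) : ℂ_[p]) * Lg (σ (g x)) := by
  classical
  refine ⟨(Finset.univ.filter fun τ : K ≃ₐ[ℚ] K => cj τ P = P).card, ?_, ?_⟩
  · exact Finset.card_ne_zero_of_mem (Finset.mem_filter.2 ⟨Finset.mem_univ 1, cj_one P⟩)
  · simp_rw [lam_formula hgal Lg P σ hσ, Finset.mul_sum]
    rw [Finset.sum_comm]
    have h1 : ∀ τ : K ≃ₐ[ℚ] K, ∑ g : K ≃ₐ[ℚ] K, ((χ g : ℂ_[p]ˣ) : ℂ_[p]) *
        (if cj τ P = P then Lg (σ (τ (g x))) else 0) =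
        if cj τ P = P then ∑ g : K ≃ₐ[ℚ] K, ((χ g : ℂ_[p]ˣ) : ℂ_[p]) * Lg (σ (g x)) else 0 := by
      intro τ
      by_cases h : cj τ P = P
      · simp only [if_pos h]
        refine Fintype.sum_bijective (fun g : K ≃ₐ[ℚ] K => τ * g) (Group.mulLeft_bijective τ) _ _ fun g => ?_
        rw [map_mul, hχ τ h, one_mul]
        rfl
      · simp only [if_neg h, mul_zero, Finset.sum_const_zero]
    rw [Finset.sum_congr rfl fun τ _ => h1 τ, ← Finset.sum_filter, Finset.sum_const, nsmul_eq_mul,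
      Finset.mul_sum]

end

theorem gab (h1 : S_GAB1) (_h2 : S_GQ) (_h3 : S_GN) : S_GAB := by
  classical
  intro p _ hp2 Lg hL K _ _ hgal hcom
  obtain ⟨S, hS⟩ : ∃ S : Set (HeightOneSpectrum (𝓞 K)),
    S = {P : HeightOneSpectrum (𝓞 K) | (p : 𝓞 K) ∈ P.asIdeal} := ⟨_, rfl⟩
  rw [← hS]
  have hmem : ∀ P, P ∈ S ↔ (p : 𝓞 K) ∈ P.asIdeal := fun P => by rw [hS]; exact Iff.rfl
  rcases S.eq_empty_or_nonempty with he | ⟨P0, hP0⟩
  · have h0 : S.ncard - 1 = 0 := by rw [he, Set.ncard_empty]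
    refine ⟨fun _ => 1, fun i => absurd i.2 (by omega), fun a _ => funext fun i => absurd i.2 (by omega)⟩
  obtain ⟨σ₀, hσ₀⟩ := Pool.Agent.Q16.GK.GC.exists_em P0 ((hmem P0).1 hP0)
  obtain ⟨π, hπ0, hπ1, hπ⟩ := exists_pi P0
  have htr : ∀ P ∈ S, ∃ g : K ≃ₐ[ℚ] K, cj g P0 = P := by
    intro P hP
    obtain ⟨σ, hσ⟩ := Pool.Agent.Q16.GK.GC.exists_em P ((hmem P).1 hP)
    obtain ⟨τ, hτ⟩ := (emb_bij hgal σ₀).2 σ
    refine ⟨τ, ?_⟩
    rw [← em_iff.1 hσ₀, ← oE_comp, ← em_iff.1 hσ]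
    exact congrArg oE hτ
  have hSfin : S.Finite := by
    refine (Set.finite_range fun g : K ≃ₐ[ℚ] K => cj g P0).subset ?_
    intro P hP
    obtain ⟨g, hg⟩ := htr P hP
    exact ⟨g, hg⟩
  have hcard : Nat.card ↥(S \ {P0}) = S.ncard - 1 := Set.ncard_sdiff_singleton_of_mem hP0
  have hfin2 : Finite ↥(S \ {P0}) := hSfin.subset Set.sdiff_subset
  obtain ⟨e⟩ : Nonempty (Fin (S.ncard - 1) ≃ ↥(S \ {P0})) := ⟨(Finite.equivFinOfCardEq hcard).symm⟩
  have he1 : ∀ i, ((e i : ↥(S \ {P0})) : HeightOneSpectrum (𝓞 K)) ∈ S := fun i => (e i).2.1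
  have he2 : ∀ i, ((e i : ↥(S \ {P0})) : HeightOneSpectrum (𝓞 K)) ≠ P0 := fun i => (e i).2.2
  choose γ hγ using fun i => htr _ (he1 i)
  have hγπ : ∀ g : K ≃ₐ[ℚ] K, g π ≠ 0 := fun g => (map_ne_zero g).2 hπ0
  refine ⟨fun i => Units.mk0 (γ i π) (hγπ (γ i)), ?_, ?_⟩
  · intro i P hP
    rw [Units.val_mk0, cj_val]
    apply hπ
    intro h
    apply hP
    rw [← cj_natCast (γ i) P p, h]
    exact (hmem P0).1 hP0
  · intro a ha
    simp only [Units.val_mk0] at ha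
    -- the function f
    have hf : ∀ g g' h : K ≃ₐ[ℚ] K, cj g P0 = cj g' P0 →
        lam Lg P0 ((h * g) π) = lam Lg P0 ((h * g') π) := by
      intro g g' h hgg
      rw [hcom h g, hcom h g']
      change lam Lg P0 (g (h π)) = lam Lg P0 (g' (h π))
      calc lam Lg P0 (g (h π)) = lam Lg (cj g P0) (h π) := (cj_lam Lg g P0 (h π)).symm
        _ = lam Lg (cj g' P0) (h π) := by rw [hgg]
        _ = _ := cj_lam Lg g' P0 (h π)
    have hrel : ∀ h : K ≃ₐ[ℚ] K, ∑ i, a i * lam Lg P0 ((h * γ i) π) = 0 := by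
      intro h
      have h5 := ha (cj h P0) ((cj_natCast h P0 p).2 ((hmem P0).1 hP0))
      simp_rw [cj_lam] at h5
      exact h5
    obtain ⟨n, hn⟩ : ∃ n : Fin (S.ncard - 1) → ℂ_[p], ∀ i, n i =
      ((Finset.univ.filter fun g : K ≃ₐ[ℚ] K => cj g P0 = e i).card : ℂ_[p]) := ⟨_, fun _ => rfl⟩
    have hn0 : ∀ i, n i ≠ 0 := by
      intro i
      rw [hn i]
      exact Nat.cast_ne_zero.2 (Finset.card_ne_zero_of_mem
        (Finset.mem_filter.2 ⟨Finset.mem_univ (γ i), hγ i⟩))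
    obtain ⟨b, hb⟩ : ∃ b : (K ≃ₐ[ℚ] K) → ℂ_[p], ∀ g, b g = ∑ i, if cj g P0 = e i then a i / n i else 0 :=
      ⟨_, fun _ => rfl⟩
    have hbf : ∀ h : K ≃ₐ[ℚ] K, ∑ g, b g * lam Lg P0 ((h * g) π) = 0 := by
      intro h
      simp_rw [hb, Finset.sum_mul]
      rw [Finset.sum_comm]
      refine Eq.trans (Finset.sum_congr rfl fun i _ => ?_) (hrel h)
      have h5 : ∀ g : K ≃ₐ[ℚ] K, (if cj g P0 = e i then a i / n i else 0) * lam Lg P0 ((h * g) π) =
          if cj g P0 = e i then a i / n i * lam Lg P0 ((h * γ i) π) else 0 := by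
        intro g
        by_cases h6 : cj g P0 = e i
        · rw [if_pos h6, if_pos h6, hf g (γ i) h (h6.trans (hγ i).symm)]
        · rw [if_neg h6, if_neg h6, zero_mul]
      rw [Finset.sum_congr rfl fun g _ => h5 g, ← Finset.sum_filter, Finset.sum_const, nsmul_eq_mul, ← hn i]
      field_simp [hn0 i]
    have hbD : ∀ g τ : K ≃ₐ[ℚ] K, cj τ P0 = P0 → b (τ * g) = b g := by
      intro g τ hτ
      rw [hb, hb, cj_mul, hτ]
    have hchar : ∀ χ : (K ≃ₐ[ℚ] K) →* ℂ_[p]ˣ, χ ≠ 1 → ∑ g, b g * (((χ g)⁻¹ : ℂ_[p]ˣ) : ℂ_[p]) = 0 := by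
      intro χ hχ
      by_cases hD : ∀ g : K ≃ₐ[ℚ] K, cj g P0 = P0 → χ g = 1
      · obtain ⟨m, hm0, hm⟩ := char_sum hgal Lg P0 σ₀ hσ₀ π χ hD
        have h5 := h1 p Lg hL K hgal hcom P0 ((hmem P0).1 hP0) π hπ0 hπ1 hπ χ hχ
          (fun g hg => hD g (eq_of_val _ _ fun x => by rw [← cj_val]; exact hg x)) σ₀
        have h6 : ∑ g : K ≃ₐ[ℚ] K, ((χ g : ℂ_[p]ˣ) : ℂ_[p]) * lam Lg P0 (g π) ≠ 0 := by
          rw [hm]
          exact mul_ne_zero (Nat.cast_ne_zero.2 hm0) h5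
        have h7 : (∑ g, b g * (((χ g)⁻¹ : ℂ_[p]ˣ) : ℂ_[p])) *
            ∑ g : K ≃ₐ[ℚ] K, ((χ g : ℂ_[p]ˣ) : ℂ_[p]) * lam Lg P0 (g π) = 0 := by
          calc (∑ g, b g * (((χ g)⁻¹ : ℂ_[p]ˣ) : ℂ_[p])) *
              ∑ g : K ≃ₐ[ℚ] K, ((χ g : ℂ_[p]ˣ) : ℂ_[p]) * lam Lg P0 (g π) =
              ∑ g, b g * (((χ g)⁻¹ : ℂ_[p]ˣ) : ℂ_[p]) *
                ∑ k : K ≃ₐ[ℚ] K, ((χ k : ℂ_[p]ˣ) : ℂ_[p]) * lam Lg P0 (k π) := Finset.sum_mul _ _ _
            _ = ∑ g, b g * ∑ h : K ≃ₐ[ℚ] K, ((χ h : ℂ_[p]ˣ) : ℂ_[p]) * lam Lg P0 ((h * g) π) := by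
                refine Finset.sum_congr rfl fun g _ => ?_
                rw [mul_assoc]
                congr 1
                rw [Finset.mul_sum]
                symm
                refine Fintype.sum_bijective (fun h : K ≃ₐ[ℚ] K => h * g) (Group.mulRight_bijective g)
                  _ _ fun h => ?_
                rw [map_mul, Units.val_mul]
                have h8 : (((χ g)⁻¹ : ℂ_[p]ˣ) : ℂ_[p]) * ((χ g : ℂ_[p]ˣ) : ℂ_[p]) = 1 := by
                  rw [← Units.val_mul, inv_mul_cancel, Units.val_one]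
                calc ((χ h : ℂ_[p]ˣ) : ℂ_[p]) * lam Lg P0 ((h * g) π) =
                    ((((χ g)⁻¹ : ℂ_[p]ˣ) : ℂ_[p]) * ((χ g : ℂ_[p]ˣ) : ℂ_[p])) *
                      (((χ h : ℂ_[p]ˣ) : ℂ_[p]) * lam Lg P0 ((h * g) π)) := by rw [h8, one_mul]
                  _ = _ := by ring
            _ = ∑ h : K ≃ₐ[ℚ] K, ((χ h : ℂ_[p]ˣ) : ℂ_[p]) * ∑ g, b g * lam Lg P0 ((h * g) π) := by
                simp_rw [Finset.mul_sum]
                rw [Finset.sum_comm]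
                refine Finset.sum_congr rfl fun h _ => Finset.sum_congr rfl fun g _ => ?_
                ring
            _ = 0 := Finset.sum_eq_zero fun h _ => by rw [hbf h, mul_zero]
        exact (mul_eq_zero.1 h7).resolve_right h6
      · push Not at hD
        obtain ⟨τ, hτ, hτ1⟩ := hD
        have h5 : (((χ τ)⁻¹ : ℂ_[p]ˣ) : ℂ_[p]) * ∑ g, b g * (((χ g)⁻¹ : ℂ_[p]ˣ) : ℂ_[p]) =
            ∑ g, b g * (((χ g)⁻¹ : ℂ_[p]ˣ) : ℂ_[p]) := by
          rw [Finset.mul_sum]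
          refine Fintype.sum_bijective (fun g : K ≃ₐ[ℚ] K => τ * g) (Group.mulLeft_bijective τ) _ _ fun g => ?_
          rw [hbD g τ hτ, map_mul, mul_inv, Units.val_mul]
          ring
        have h6 : ((((χ τ)⁻¹ : ℂ_[p]ˣ) : ℂ_[p]) - 1) * ∑ g, b g * (((χ g)⁻¹ : ℂ_[p]ˣ) : ℂ_[p]) = 0 := by
          rw [sub_mul, one_mul, h5, sub_self]
        rcases mul_eq_zero.1 h6 with h7 | h7
        · exfalso
          apply hτ1
          have h8 : (χ τ)⁻¹ = 1 := Units.ext (sub_eq_zero.1 h7)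
          exact inv_eq_one.1 h8
        · exact h7
    have hconst := char_const hcom b hchar
    have hb1 : b 1 = 0 := by
      rw [hb]
      refine Finset.sum_eq_zero fun i _ => ?_
      rw [if_neg]
      rw [cj_one]
      exact (he2 i).symm
    funext i
    have h9 : b (γ i) = a i / n i := by
      rw [hb, Finset.sum_eq_single i]
      · rw [if_pos (hγ i)]
      · intro j _ hj
        rw [if_neg]
        intro h
        rw [hγ i] at h
        exact hj (e.injective (Subtype.ext h)).symm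
      · intro h
        exact absurd (Finset.mem_univ _) h
    rw [hconst (γ i) 1, hb1] at h9
    have h10 := (div_eq_zero_iff.1 h9.symm).resolve_right (hn0 i)
    exact h10

end Pool.Agent.Q129.GK.GAB
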